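import Mathlib

/-!
# Total domination versus matching number with three vertices outside triangles

The graph on 7 vertices with edges `06, 12, 25, 34, 35, 36, 45, 46` is connected, all its
vertices but `0, 1, 2` lie in triangles, its total domination number is 4 and its matching number
is at most 3.
-/

set_option autoImplicit false

namespace Pool.Agent.Results.MP_7cc4cd_co.ThreeExceptions

variable {V : Type} [Fintype V] [DecidableEq V]

/-- The vertex `v` lies in a triangle. -/
def InTriangle (G : SimpleGraph V) (v : V) : Prop :=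
  ∃ a b : V, G.Adj v a ∧ G.Adj v b ∧ G.Adj a b

/-- The class `𝒢_k`: every connected component has at least four vertices and all but at most `k`
vertices lie in a triangle. -/
def InClass (k : ℕ) (G : SimpleGraph V) : Prop :=
  (∀ c : G.ConnectedComponent, 4 ≤ c.supp.ncard) ∧ {v : V | ¬ InTriangle G v}.ncard ≤ k

/-- Every vertex has a neighbour in `S`. -/
def TotalDominating (G : SimpleGraph V) (S : Finset V) : Prop := ∀ v, ∃ u ∈ S, G.Adj v u

/-- The total domination number. -/
noncomputable def gammaT (G : SimpleGraph V) : ℕ :=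
  sInf {k | ∃ S : Finset V, TotalDominating G S ∧ S.card = k}

/-- `M` is a matching: a set of pairwise disjoint edges. -/
def IsMatching (G : SimpleGraph V) (M : Finset (Sym2 V)) : Prop :=
  (∀ e ∈ M, e ∈ G.edgeSet) ∧ ∀ e ∈ M, ∀ f ∈ M, ∀ v, v ∈ e → v ∈ f → e = f

/-- The matching number. -/
noncomputable def matchingNum (G : SimpleGraph V) : ℕ :=
  sSup {k | ∃ M : Finset (Sym2 V), IsMatching G M ∧ M.card = k}

theorem two_mul_card_le {G : SimpleGraph V} {M : Finset (Sym2 V)} (hM : IsMatching G M) :
    2 * M.card ≤ Fintype.card V := by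
  have h : (M.biUnion fun e => e.toFinset).card = ∑ e ∈ M, e.toFinset.card := by
    refine Finset.card_biUnion ?_
    intro e he f hf hne
    rw [Function.onFun, Finset.disjoint_left]
    intro v h1 h2
    rw [Sym2.mem_toFinset] at h1 h2
    exact hne (hM.2 e he f hf v h1 h2)
  have h2 : ∀ e ∈ M, e.toFinset.card = 2 := by
    intro e he
    refine Sym2.card_toFinset_of_not_isDiag e ?_
    exact G.not_isDiag_of_mem_edgeSet (hM.1 e he)
  rw [Finset.sum_congr rfl h2, Finset.sum_const, smul_eq_mul] at h
  have h3 := Finset.card_le_univ (M.biUnion fun e => e.toFinset)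
  omega

theorem matchingNum_le {G : SimpleGraph V} {k : ℕ} (h : Fintype.card V ≤ 2 * k + 1) :
    matchingNum G ≤ k := by
  refine csSup_le ⟨0, ∅, ⟨by simp, by simp⟩, rfl⟩ ?_
  rintro l ⟨M, hM, rfl⟩
  have := two_mul_card_le hM
  omega

/-- the edges -/
def nb : Fin 7 → List (Fin 7) := ![[6], [2], [1, 5], [4, 5, 6], [3, 5, 6], [2, 3, 4], [0, 3, 4]]

/-- the graph -/
def H : SimpleGraph (Fin 7) where
  Adj i j := j ∈ nb i
  symm := ⟨by decide⟩
  loopless := ⟨by decide⟩

instance : DecidableRel H.Adj := fun i j => inferInstanceAs (Decidable (j ∈ nb i))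

theorem connected_H : H.Connected := by
  have h : ∀ v, H.Reachable v 3 := by
    have e3 : H.Reachable 4 3 := SimpleGraph.Adj.reachable (by decide)
    have e5 : H.Reachable 5 3 := SimpleGraph.Adj.reachable (by decide)
    have e6 : H.Reachable 6 3 := SimpleGraph.Adj.reachable (by decide)
    have e0 : H.Reachable 0 3 := (SimpleGraph.Adj.reachable (by decide : H.Adj 0 6)).trans e6
    have e2 : H.Reachable 2 3 := (SimpleGraph.Adj.reachable (by decide : H.Adj 2 5)).trans e5
    have e1 : H.Reachable 1 3 := (SimpleGraph.Adj.reachable (by decide : H.Adj 1 2)).trans e2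
    intro v
    fin_cases v
    · exact e0
    · exact e1
    · exact e2
    · exact SimpleGraph.Reachable.refl _
    · exact e3
    · exact e5
    · exact e6
  exact ⟨fun u v => (h u).trans (h v).symm⟩

/-- Q2 has a negative answer: there is a graph in `𝒢_3` with `γ_t > α'`. -/
theorem result : ∃ (V : Type) (_ : Fintype V) (_ : DecidableEq V) (G : SimpleGraph V),
    InClass 3 G ∧ matchingNum G < gammaT G := by
  refine ⟨Fin 7, inferInstance, inferInstance, H, ⟨?_, ?_⟩, ?_⟩
  · intro c
    have hc : c.supp = Set.univ := by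
      rw [Set.eq_univ_iff_forall]
      intro v
      rw [SimpleGraph.ConnectedComponent.mem_supp_iff]
      induction c using SimpleGraph.ConnectedComponent.ind with
      | _ w => exact SimpleGraph.ConnectedComponent.sound (connected_H v w)
    rw [hc, Set.ncard_univ]
    simp
  · have h : {v : Fin 7 | ¬ InTriangle H v} ⊆ (({0, 1, 2} : Finset (Fin 7)) : Set (Fin 7)) := by
      have h1 : ∀ v : Fin 7, v ∉ ({0, 1, 2} : Finset (Fin 7)) →
          ∃ a b : Fin 7, H.Adj v a ∧ H.Adj v b ∧ H.Adj a b := by decide
      intro v hv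
      by_contra hcon
      exact hv (h1 v hcon)
    refine (Set.ncard_le_ncard h (Finset.finite_toSet _)).trans ?_
    rw [Set.ncard_coe_finset]
    decide
  · have h1 : matchingNum H ≤ 3 := matchingNum_le (by simp)
    have h2 : 4 ≤ gammaT H := by
      refine le_csInf ⟨7, Finset.univ, ?_, by simp⟩ ?_
      · have : ∀ v : Fin 7, ∃ u ∈ (Finset.univ : Finset (Fin 7)), H.Adj v u := by decide
        exact this
      · rintro k ⟨S, hS, rfl⟩
        have : ∀ S : Finset (Fin 7), (∀ v, ∃ u ∈ S, H.Adj v u) → 4 ≤ S.card := by decide +kernel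
        exact this S hS
    omega

end Pool.Agent.Results.MP_7cc4cd_co.ThreeExceptions
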